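import Pool.Agent.Lib.MP_3e612f_nt.EM.U.Main

/-!
The statement of the hand-in, from the theorem for one character.
-/

set_option autoImplicit false

namespace Pool.Agent.Lib.MP_3e612f_nt.EM

open Finset
open Pool.Agent.Lib.MP_3e612f_nt.PI (ee mc)

/-- the statement of the hand-in, with the theorem for one character as a hypothesis -/
theorem result_of (q m d : ℕ) (hq : 2 ≤ q) (hm : 1 ≤ m) (hd : 1 ≤ d)
    (hmain : EMain q (q * m) d) (A : Type) [AddCommGroup A] [Finite A] [UniformSpace A]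
    [DiscreteUniformity A] :
    let X : Set (ℕ → A) := {x | ∀ l : ℕ, ∃ (L s : ℕ) (F : (Fin d → Fin L) → (Fin d → ℕ) → A),
      ∀ i < l, x i = ∑ j : Fin d → Fin L, F j
        (fun a => (i + s) / q ^ (j a : ℕ) % m)}
    let T : (ℕ → A) → ℕ → A := fun x i => x (i + 1)
    X.Nonempty ∧ IsClosed X ∧ Set.MapsTo T X X ∧ Dynamics.coverEntropy T X = 0 ∧
      ∀ f : (ℕ → A) → ℂ, ContinuousOn f X → ∀ ε : ℝ, 0 < ε → ∃ N₀ : ℕ, ∀ N ≥ N₀, ∀ x ∈ X,
        ‖∑ n ∈ Finset.Icc 1 N, f (T^[n] x) * ((ArithmeticFunction.moebius n : ℤ) : ℂ)‖ ≤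
          ε * N := by
  intro X T
  have hX : X = UXM q m d A := (UXM_eq q m d A).symm
  have hT : ∀ (n : ℕ) (x : ℕ → A), T^[n] x = fun i => x (i + n) := by
    intro n
    induction n with
    | zero => intro x; rfl
    | succ n ih =>
      intro x
      rw [Function.iterate_succ_apply, ih]
      funext i
      show x (i + n + 1) = x (i + (n + 1))
      rfl
  have hTX : Set.MapsTo T X X := by
    intro x hx
    rw [hX] at hx ⊢
    exact UXM_shift hx 1
  refine ⟨?_, ?_, hTX, ?_, ?_⟩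
  · rw [hX]
    exact ⟨_, UXM_nonempty q m d⟩
  · rw [hX]
    exact UXM_closed q m d
  · rw [hX]
    exact UXM_entropy q m d hq hm A
  · intro f hf ε hε
    rw [hX] at hf
    obtain ⟨N₀, hN₀⟩ := UXM_main q m d hq hd hmain A f hf hε
    refine ⟨N₀, fun N hN x hx => ?_⟩
    rw [hX] at hx
    have h := hN₀ N hN x hx
    have e : ∑ n ∈ Finset.Icc 1 N, f (T^[n] x) * ((ArithmeticFunction.moebius n : ℤ) : ℂ) =
        ∑ n ∈ Finset.Icc 1 N, mc n * f (fun i => x (i + n)) := by
      refine Finset.sum_congr rfl fun n _ => ?_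
      rw [hT n x, mul_comm]
      rfl
    rw [e]
    exact h

end Pool.Agent.Lib.MP_3e612f_nt.EM
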