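import Pool.Agent.Lib.MP_3e612f_nt.EM.U.Ph
import Pool.Agent.Lib.MP_3e612f_nt.PI.Words

/-!
Functions of words of a phase with interactions of `d` windows modulo `m`, values in a finite abelian
group, from the theorem `EMain q m d` for one character (as `DI/U/Words.lean`).
-/

set_option autoImplicit false

namespace Pool.Agent.Lib.MP_3e612f_nt.EM

open Finset
open Pool.Agent.Lib.MP_3e612f_nt.PI (ee mc Words_hom Words_ind Words_bad fourier_exists
  embed_exists)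

/-- the theorem for one character: phases with interactions of `d` windows modulo `m` -/
def EMain (q m d : ℕ) : Prop :=
  ∀ (M : ℕ) [NeZero M], ∀ ε : ℝ, 0 < ε →
    ∃ N0 : ℕ, ∀ N ≥ N0, ∀ (L s : ℕ) (F : (Fin d → ℕ) → (Fin d → ℕ) → ZMod M),
      ‖∑ n ∈ Icc 1 N, mc n * ee (phm q m d L F (n + s))‖ ≤ ε * N

theorem Words_partm (q m d K M k : ℕ) [NeZero M] [NeZero (q ^ K)] [NeZero (M * q ^ K)] (hq : 2 ≤ q)
    (hm : q ∣ m) (hd : 1 ≤ d) (ι : Type) [Fintype ι] (N L s v : ℕ) (hv : v + k ≤ q ^ K) (hv' : v < q ^ K)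
    (F : (Fin d → ℕ) → (Fin d → ℕ) → ι → ZMod M)
    (w : (Fin k → ι → ZMod M) → ℂ) (hw : ∀ y, ‖w y‖ ≤ 1) (B : ℝ)
    (hB : ∀ (L' : ℕ) (F' : (Fin d → ℕ) → (Fin d → ℕ) → ZMod (M * q ^ K)),
      ‖∑ n ∈ Icc 1 N, mc n * ee (phm q m d L' F' (n + s))‖ ≤ B) (T : ℕ)
    (hT : ∀ (_ : DecidableEq ι), Fintype.card (Fin k × ι → ZMod M) = T) :
    ‖∑ n ∈ (Icc 1 N).filter (fun n => (n + s) % q ^ K = v),
      mc n * w (fun j => phm q m d L F (n + s + j))‖ ≤ T * B := by
  classical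
  have hT' := hT (Classical.decEq ι)
  choose f hf using fun j : Fin k => shift_lowm hq m d L K v j (by have := j.2; omega) F
  obtain ⟨a, ha, hfou⟩ := fourier_exists (ι := Fin k × ι) M (fun y => w (fun j i => y (j, i)))
    (fun y => hw _)
  obtain ⟨ψ, hψ⟩ := Words_hom M (q ^ K) (M * q ^ K) rfl
  obtain ⟨χ, hχ⟩ := Words_hom (q ^ K) M (M * q ^ K) (mul_comm _ _)
  have eadd : ∀ {m : ℕ} [NeZero m] (x y : ZMod m), ee (x + y) = ee x * ee y := by
    intro m _ x y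
    unfold ee
    exact AddChar.map_add_eq_mul _ _ _
  have enorm : ∀ {m : ℕ} [NeZero m] (x : ZMod m), ‖ee x‖ = 1 := by
    intro m _ x
    unfold ee
    exact AddChar.norm_apply _ _
  have key : ∀ (t : Fin k × ι → ZMod M) (b : ZMod (q ^ K)), ∃ (L' : ℕ)
      (F' : (Fin d → ℕ) → (Fin d → ℕ) → ZMod (M * q ^ K)), ∀ n : ℕ,
      ee (∑ x, t x * f x.1 n x.2) * ee (b * (n : ZMod (q ^ K))) = ee (phm q m d L' F' n) := by
    intro t b
    have h1 : IsPhm q m d (fun n => ∑ x : Fin k × ι, t x * f x.1 n x.2) := by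
      apply IsPhm.sum
      intro x _
      exact IsPhm.map ((AddMonoidHom.mulLeft (t x)).comp (Pi.evalAddMonoidHom _ x.2)) (hf x.1).1
    have h2 := IsPhm.map ψ h1
    have h3 := low_digitsm (q := q) hm d K hd (M * q ^ K) (χ b)
    obtain ⟨L', F', h4⟩ := IsPhm.add h2 h3
    refine ⟨L', F', fun n => ?_⟩
    have h5 := congrFun h4 n
    rw [← h5, eadd, hψ]
    congr 1
    have h6 : χ b * ((n % q ^ K : ℕ) : ZMod (M * q ^ K)) = χ (b * (n : ZMod (q ^ K))) := by
      have h7 : b * (n : ZMod (q ^ K)) = (n % q ^ K) • b := by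
        rw [nsmul_eq_mul, ZMod.natCast_mod, mul_comm]
      rw [h7, map_nsmul, nsmul_eq_mul]
      exact mul_comm _ _
    rw [h6, hχ]
  choose L' F' hLF using key
  have hB0 : 0 ≤ B := le_trans (norm_nonneg _) (hB 0 (fun _ _ => 0))
  have hQ0 : ((q ^ K : ℕ) : ℂ) ≠ 0 := by exact_mod_cast NeZero.ne (q ^ K)
  have hpt : ∀ n ∈ Icc 1 N, (if (n + s) % q ^ K = v then
      mc n * w (fun j => phm q m d L F (n + s + j)) else 0) =
      ∑ t : Fin k × ι → ZMod M, ∑ b : ZMod (q ^ K),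
        (a t * (((q ^ K : ℕ) : ℂ)⁻¹ * ee (-(b * (v : ZMod (q ^ K)))))) *
          (mc n * ee (phm q m d (L' t b) (F' t b) (n + s))) := by
    intro n _
    have h1 : ∀ (t : Fin k × ι → ZMod M) (b : ZMod (q ^ K)),
        (a t * (((q ^ K : ℕ) : ℂ)⁻¹ * ee (-(b * (v : ZMod (q ^ K)))))) *
          (mc n * ee (phm q m d (L' t b) (F' t b) (n + s))) =
        (mc n * ((q ^ K : ℕ) : ℂ)⁻¹) * ((a t * ee (∑ x, t x * f x.1 (n + s) x.2)) *
          ee (b * (((n + s : ℕ) : ZMod (q ^ K)) - (v : ZMod (q ^ K))))) := by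
      intro t b
      rw [← hLF t b, mul_sub, sub_eq_add_neg, eadd]
      ring
    simp_rw [h1, ← mul_sum, ← sum_mul]
    rw [Words_ind (q ^ K) (n + s) v hv']
    split_ifs with h2
    · have h3 := hfou (fun x => f x.1 (n + s) x.2)
      simp only at h3
      rw [← h3]
      have h4 : (fun j : Fin k => phm q m d L F (n + s + j)) = fun j i => f j (n + s) i := by
        funext j
        exact (hf j).2 (n + s) h2
      rw [h4]
      field_simp
    · simp
  rw [sum_filter, sum_congr rfl hpt, sum_comm]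
  have h2 : ∀ t : Fin k × ι → ZMod M, ‖∑ n ∈ Icc 1 N, ∑ b : ZMod (q ^ K),
        (a t * (((q ^ K : ℕ) : ℂ)⁻¹ * ee (-(b * (v : ZMod (q ^ K)))))) *
          (mc n * ee (phm q m d (L' t b) (F' t b) (n + s)))‖ ≤ B := by
    intro t
    rw [sum_comm]
    calc _ ≤ ∑ b : ZMod (q ^ K), ‖∑ n ∈ Icc 1 N,
          (a t * (((q ^ K : ℕ) : ℂ)⁻¹ * ee (-(b * (v : ZMod (q ^ K)))))) *
          (mc n * ee (phm q m d (L' t b) (F' t b) (n + s)))‖ := norm_sum_le _ _
      _ ≤ ∑ b : ZMod (q ^ K), ((q ^ K : ℕ) : ℝ)⁻¹ * B := by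
          apply sum_le_sum
          intro b _
          rw [← mul_sum, norm_mul, norm_mul, norm_mul, enorm, mul_one, norm_inv,
            Complex.norm_natCast]
          have hQ' : (0:ℝ) ≤ ((q ^ K : ℕ) : ℝ)⁻¹ := by positivity
          calc _ ≤ (1 * ((q ^ K : ℕ) : ℝ)⁻¹) * B := by
                apply mul_le_mul _ (hB _ _) (norm_nonneg _) (by positivity)
                exact mul_le_mul_of_nonneg_right (ha t) hQ'
            _ = _ := by ring
      _ = B := by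
          rw [sum_const, card_univ, ZMod.card, nsmul_eq_mul]
          have : ((q ^ K : ℕ) : ℝ) ≠ 0 := by exact_mod_cast NeZero.ne (q ^ K)
          field_simp
  calc _ ≤ ∑ t : Fin k × ι → ZMod M, ‖∑ n ∈ Icc 1 N, ∑ b : ZMod (q ^ K),
        (a t * (((q ^ K : ℕ) : ℂ)⁻¹ * ee (-(b * (v : ZMod (q ^ K)))))) *
          (mc n * ee (phm q m d (L' t b) (F' t b) (n + s)))‖ := norm_sum_le _ _
    _ ≤ ∑ t : Fin k × ι → ZMod M, B := sum_le_sum (fun t _ => h2 t)
    _ = T * B := by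
        rw [sum_const, card_univ, nsmul_eq_mul, ← hT']

theorem vec_mainm (q m d M k : ℕ) [NeZero M] (hq : 2 ≤ q) (hm : q ∣ m) (hd : 1 ≤ d)
    (hmain : EMain q m d) (ι : Type) [Fintype ι]
    {ε : ℝ} (hε : 0 < ε) :
    ∃ N0 : ℕ, ∀ N ≥ N0, ∀ (L s : ℕ) (F : (Fin d → ℕ) → (Fin d → ℕ) → ι → ZMod M)
      (w : (Fin k → ι → ZMod M) → ℂ), (∀ y, ‖w y‖ ≤ 1) →
      ‖∑ n ∈ Icc 1 N, mc n * w (fun j => phm q m d L F (n + s + j))‖ ≤ ε * N := by
  classical
  -- choice of K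
  obtain ⟨K, hK⟩ : ∃ K : ℕ, max (k : ℝ) (4 * k / ε) < (q : ℝ) ^ K :=
    pow_unbounded_of_one_lt _ (by exact_mod_cast (by omega : 1 < q))
  have hQpos : 0 < q ^ K := by positivity
  have : NeZero (q ^ K) := ⟨hQpos.ne'⟩
  have : NeZero (M * q ^ K) := ⟨mul_ne_zero (NeZero.ne M) hQpos.ne'⟩
  have hkQ : k ≤ q ^ K := by
    have : (k : ℝ) ≤ ((q ^ K : ℕ) : ℝ) := by
      push_cast
      exact le_trans (le_max_left _ _) hK.le
    exact_mod_cast this
  have hkε : (k : ℝ) ≤ ε / 4 * ((q ^ K : ℕ) : ℝ) := by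
    have h := le_trans (le_max_right _ _) hK.le
    rw [div_le_iff₀ hε] at h
    push_cast
    linarith
  set T : ℕ := Fintype.card (Fin k × ι → ZMod M) with hT
  have hTpos : 0 < T := Fintype.card_pos
  obtain ⟨N0, hN0⟩ := hmain (M * q ^ K) (ε / (2 * (q ^ K : ℕ) * T)) (by positivity)
  obtain ⟨N1, hN1⟩ := exists_nat_ge (8 * k / ε)
  refine ⟨max N0 N1, fun N hN L s F w hw => ?_⟩
  have hNN1 : (8 * k : ℝ) ≤ ε * N := by
    have : (8 * k / ε : ℝ) ≤ N := le_trans hN1 (by exact_mod_cast le_trans (le_max_right _ _) hN)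
    rw [div_le_iff₀ hε] at this
    linarith
  have hcn : ∀ n : ℕ, ‖mc n‖ ≤ 1 := by
    intro n
    unfold mc
    rw [Complex.norm_intCast]
    exact_mod_cast ArithmeticFunction.abs_moebius_le_one
  set W : ℕ → ℂ := fun n => mc n * w (fun j => phm q m d L F (n + s + j)) with hW
  have hWn : ∀ n, ‖W n‖ ≤ 1 := by
    intro n
    rw [hW]
    simp only [norm_mul]
    calc _ ≤ 1 * 1 := mul_le_mul (hcn n) (hw _) (norm_nonneg _) (by norm_num)
      _ = 1 := one_mul _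
  have hsplit : ∑ n ∈ Icc 1 N, W n =
      ∑ n ∈ (Icc 1 N).filter (fun n => (n + s) % q ^ K + k ≤ q ^ K), W n +
      ∑ n ∈ (Icc 1 N).filter (fun n => ¬ ((n + s) % q ^ K + k ≤ q ^ K)), W n :=
    (sum_filter_add_sum_filter_not _ _ _).symm
  have hbad : ‖∑ n ∈ (Icc 1 N).filter (fun n => ¬ ((n + s) % q ^ K + k ≤ q ^ K)), W n‖
      ≤ ε / 2 * N := by
    calc _ ≤ ∑ n ∈ (Icc 1 N).filter (fun n => ¬ ((n + s) % q ^ K + k ≤ q ^ K)), ‖W n‖ :=
          norm_sum_le _ _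
      _ ≤ ∑ n ∈ (Icc 1 N).filter (fun n => ¬ ((n + s) % q ^ K + k ≤ q ^ K)), (1:ℝ) :=
          sum_le_sum (fun n _ => hWn n)
      _ = (((Icc 1 N).filter (fun n => ¬ ((n + s) % q ^ K + k ≤ q ^ K))).card : ℝ) := by simp
      _ ≤ ((k * (N / q ^ K + 2) : ℕ) : ℝ) := by
          exact_mod_cast Words_bad (q ^ K) N s k hQpos hkQ
      _ ≤ k * ((N : ℝ) / (q ^ K : ℕ) + 2) := by
          push_cast
          have h := Nat.cast_div_le (α := ℝ) (m := N) (n := q ^ K)
          push_cast at h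
          gcongr
      _ = k * ((N : ℝ) / (q ^ K : ℕ)) + 2 * k := by ring
      _ ≤ ε / 4 * N + ε / 4 * N := by
          have hQ' : (0:ℝ) < ((q ^ K : ℕ) : ℝ) := by exact_mod_cast hQpos
          have h1 : (k : ℝ) * ((N : ℝ) / (q ^ K : ℕ)) ≤ ε / 4 * N := by
            rw [mul_div_assoc', div_le_iff₀ hQ']
            have hN' : (0:ℝ) ≤ N := Nat.cast_nonneg N
            nlinarith
          linarith
      _ = ε / 2 * N := by ring
  have hgood : ‖∑ n ∈ (Icc 1 N).filter (fun n => (n + s) % q ^ K + k ≤ q ^ K), W n‖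
      ≤ ε / 2 * N := by
    have h1 : ∑ n ∈ (Icc 1 N).filter (fun n => (n + s) % q ^ K + k ≤ q ^ K), W n =
        ∑ v ∈ (range (q ^ K)).filter (fun v => v + k ≤ q ^ K),
          ∑ n ∈ (Icc 1 N).filter (fun n => (n + s) % q ^ K = v), W n := by
      rw [← sum_fiberwise_of_maps_to (g := fun n => (n + s) % q ^ K)
        (t := (range (q ^ K)).filter (fun v => v + k ≤ q ^ K))]
      · apply sum_congr rfl
        intro v hv
        rw [mem_filter] at hv
        apply sum_congr _ (fun _ _ => rfl)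
        ext n
        simp only [mem_filter, mem_Icc]
        constructor
        · rintro ⟨⟨h1, h2⟩, h3⟩
          exact ⟨h1, h3⟩
        · rintro ⟨h1, h3⟩
          exact ⟨⟨h1, by rw [h3]; exact hv.2⟩, h3⟩
      · intro n hn
        rw [mem_filter] at hn
        rw [mem_filter, mem_range]
        exact ⟨Nat.mod_lt _ hQpos, hn.2⟩
    rw [h1]
    have h2 : ∀ v ∈ (range (q ^ K)).filter (fun v => v + k ≤ q ^ K),
        ‖∑ n ∈ (Icc 1 N).filter (fun n => (n + s) % q ^ K = v), W n‖ ≤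
        T * (ε / (2 * (q ^ K : ℕ) * T) * N) := by
      intro v hv
      rw [mem_filter, mem_range] at hv
      exact Words_partm q m d K M k hq hm hd ι N L s v hv.2 hv.1 F w hw _
        (fun L' F' => hN0 N (le_trans (le_max_left _ _) hN) L' s F') T
        (fun _ => by rw [hT]; congr!)
    calc _ ≤ ∑ v ∈ (range (q ^ K)).filter (fun v => v + k ≤ q ^ K),
          ‖∑ n ∈ (Icc 1 N).filter (fun n => (n + s) % q ^ K = v), W n‖ := norm_sum_le _ _
      _ ≤ ∑ v ∈ (range (q ^ K)).filter (fun v => v + k ≤ q ^ K),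
          T * (ε / (2 * (q ^ K : ℕ) * T) * N) := sum_le_sum h2
      _ ≤ ∑ v ∈ range (q ^ K), T * (ε / (2 * (q ^ K : ℕ) * T) * N) := by
          apply sum_le_sum_of_subset_of_nonneg (filter_subset _ _)
          intro _ _ _
          positivity
      _ = ε / 2 * N := by
          rw [sum_const, card_range, nsmul_eq_mul]
          have hQ' : ((q ^ K : ℕ) : ℝ) ≠ 0 := by exact_mod_cast hQpos.ne'
          have hT' : (T : ℝ) ≠ 0 := by exact_mod_cast hTpos.ne'
          field_simp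
  change ‖∑ n ∈ Icc 1 N, W n‖ ≤ ε * N
  rw [hsplit]
  calc _ ≤ _ := norm_add_le _ _
    _ ≤ ε / 2 * N + ε / 2 * N := add_le_add hgood hbad
    _ = ε * N := by ring

theorem words_mainm (q m d k : ℕ) (hq : 2 ≤ q) (hd : 1 ≤ d) (hmain : EMain q (q * m) d)
    (A : Type) [AddCommGroup A] [Finite A] {ε : ℝ} (hε : 0 < ε) :
    ∃ N0 : ℕ, ∀ N ≥ N0, ∀ (L s : ℕ) (F : (Fin d → ℕ) → (Fin d → ℕ) → A)
      (w : (Fin k → A) → ℂ), (∀ y, ‖w y‖ ≤ 1) →
      ‖∑ n ∈ Icc 1 N, mc n * w (fun j => phm q m d L F (n + s + j))‖ ≤ ε * N := by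
  have : NeZero (Nat.card A) := ⟨Nat.card_pos.ne'⟩
  obtain ⟨ι, _, φ, hφ⟩ := embed_exists A (Nat.card A) (fun a => card_nsmul_eq_zero')
  obtain ⟨N0, hN0⟩ := vec_mainm q (q * m) d (Nat.card A) k hq (Dvd.intro _ rfl) hd hmain ι hε
  refine ⟨N0, fun N hN L s F w hw => ?_⟩
  have h := hN0 N hN L s (fun j x => φ (F j (fun a => x a % m)))
    (fun y => w (fun j => Function.invFun φ (y j))) (fun y => hw _)
  have h1 : ∀ n, phm q (q * m) d L (fun j x => φ (F j (fun a => x a % m))) n =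
      φ (phm q m d L F n) := by
    intro n
    unfold phm
    rw [map_sum]
    refine Finset.sum_congr rfl fun j _ => ?_
    have h2 : (fun a => n / q ^ (j a) % (q * m) % m) = fun a => n / q ^ (j a) % m :=
      funext fun a => Nat.mod_mod_of_dvd _ (Dvd.intro_left _ rfl)
    show φ (F j fun a => n / q ^ (j a) % (q * m) % m) = _
    rw [h2]
  simp only [h1, Function.leftInverse_invFun hφ _] at h
  exact h

end Pool.Agent.Lib.MP_3e612f_nt.EM
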