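import Pool.Agent.Lib.MP_3e612f_nt.PI.WordsA
import Pool.Agent.Lib.MP_3e612f_nt.PI.Tr

/-!
Functions of `d` windows `n / q ^ i % m`, `m` arbitrary: definition, closure properties, truncation
(as `DI/U/Ph.lean`).
-/

set_option autoImplicit false

namespace Pool.Agent.Lib.MP_3e612f_nt.EM

open Finset
open Pool.Agent.Lib.MP_3e612f_nt.PI (ee mc WordsA_dig)

section
variable {G : Type} [AddCommGroup G]

/-- phases with interactions of `d` windows modulo `m` -/
def phm (q m d L : ℕ) (F : (Fin d → ℕ) → (Fin d → ℕ) → G) (n : ℕ) : G :=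
  ∑ j ∈ Fintype.piFinset (fun _ : Fin d => range L), F j (fun a => n / q ^ (j a) % m)

/-- being a phase with interactions of `d` windows modulo `m` -/
def IsPhm (q m d : ℕ) (f : ℕ → G) : Prop :=
  ∃ (L : ℕ) (F : (Fin d → ℕ) → (Fin d → ℕ) → G), f = phm q m d L F

/-- change of the windows -/
theorem phm_reindex {q m m' d L L' n n' : ℕ} (π : ℕ → ℕ) (hπ : ∀ i < L, π i < L')
    (w : ℕ → ℕ → ℕ) (hw : ∀ i, n / q ^ i % m = w i (n' / q ^ (π i) % m'))
    (F : (Fin d → ℕ) → (Fin d → ℕ) → G) :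
    phm q m d L F n = phm q m' d L' (fun j' x =>
      ∑ j ∈ (Fintype.piFinset (fun _ : Fin d => range L)).filter (fun j => (fun a => π (j a)) = j'),
        F j (fun a => w (j a) (x a))) n' := by
  unfold phm
  rw [← Finset.sum_fiberwise_of_maps_to (s := Fintype.piFinset (fun _ : Fin d => range L))
    (t := Fintype.piFinset (fun _ : Fin d => range L')) (g := fun j a => π (j a))]
  · refine Finset.sum_congr rfl fun j' _ => Finset.sum_congr rfl fun j hj => ?_
    rw [mem_filter] at hj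
    congr 1
    funext a
    rw [hw (j a), ← hj.2]
  · intro j hj
    rw [Fintype.mem_piFinset] at hj ⊢
    intro a
    rw [mem_range]
    exact hπ _ (mem_range.1 (hj a))

theorem phm_ext {q m d L M : ℕ} (hLM : L ≤ M) (F : (Fin d → ℕ) → (Fin d → ℕ) → G) (n : ℕ) :
    phm q m d M (fun j x => if ∀ a, j a < L then F j x else 0) n = phm q m d L F n := by
  unfold phm
  have hsub : Fintype.piFinset (fun _ : Fin d => range L) ⊆
      Fintype.piFinset (fun _ : Fin d => range M) :=
    Fintype.piFinset_subset _ _ fun _ => range_subset_range.2 hLM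
  symm
  rw [← Finset.sum_subset hsub]
  · refine Finset.sum_congr rfl fun j hj => ?_
    rw [Fintype.mem_piFinset] at hj
    show _ = if ∀ a, j a < L then F j (fun a => n / q ^ (j a) % m) else 0
    rw [if_pos fun a => mem_range.1 (hj a)]
  · intro j _ hj
    show (if ∀ a, j a < L then F j (fun a => n / q ^ (j a) % m) else 0) = 0
    rw [if_neg]
    intro h
    exact hj (Fintype.mem_piFinset.2 fun a => mem_range.2 (h a))

theorem phm_add (q m d L : ℕ) (F F' : (Fin d → ℕ) → (Fin d → ℕ) → G) (n : ℕ) :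
    phm q m d L F n + phm q m d L F' n = phm q m d L (fun j x => F j x + F' j x) n := by
  unfold phm
  rw [Finset.sum_add_distrib]

theorem IsPhm.add {q m d : ℕ} {f h : ℕ → G} (hf : IsPhm q m d f) (hh : IsPhm q m d h) :
    IsPhm q m d (fun n => f n + h n) := by
  obtain ⟨L, F, rfl⟩ := hf
  obtain ⟨L', F', rfl⟩ := hh
  refine ⟨max L L', fun j x => (if ∀ a, j a < L then F j x else 0) +
    (if ∀ a, j a < L' then F' j x else 0), ?_⟩
  funext n
  rw [← phm_ext (le_max_left L L') F n, ← phm_ext (le_max_right L L') F' n, phm_add]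

theorem IsPhm.zero (q m d : ℕ) : IsPhm q m d (fun _ => (0 : G)) := by
  refine ⟨0, fun _ _ => 0, ?_⟩
  funext n
  simp [phm]

theorem IsPhm.sum {q m d : ℕ} {ι : Type} (S : Finset ι) {f : ι → ℕ → G}
    (hf : ∀ i ∈ S, IsPhm q m d (f i)) : IsPhm q m d (fun n => ∑ i ∈ S, f i n) := by
  classical
  induction S using Finset.induction_on with
  | empty =>
    simp only [Finset.sum_empty]
    exact IsPhm.zero q m d
  | insert a S ha ih =>
    have h1 := IsPhm.add (hf a (mem_insert_self a S))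
      (ih fun i hi => hf i (mem_insert_of_mem hi))
    have h2 : (fun n => ∑ i ∈ insert a S, f i n) = fun n => f a n + ∑ i ∈ S, f i n := by
      funext n
      rw [Finset.sum_insert ha]
    rw [h2]
    exact h1

theorem phm_map {q m d L : ℕ} {G' : Type} [AddCommGroup G'] (φ : G →+ G')
    (F : (Fin d → ℕ) → (Fin d → ℕ) → G) (n : ℕ) :
    phm q m d L (fun j x => φ (F j x)) n = φ (phm q m d L F n) := by
  unfold phm
  rw [map_sum]

theorem IsPhm.map {q m d : ℕ} {G' : Type} [AddCommGroup G'] (φ : G →+ G') {f : ℕ → G}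
    (hf : IsPhm q m d f) : IsPhm q m d (fun n => φ (f n)) := by
  obtain ⟨L, F, rfl⟩ := hf
  exact ⟨L, fun j x => φ (F j x), funext fun n => (phm_map φ F n).symm⟩

/-- windows modulo a divisor of `m'` -/
theorem IsPhm.mono_mod {q m m' d : ℕ} (hm : m ∣ m') {f : ℕ → G} (hf : IsPhm q m d f) :
    IsPhm q m' d f := by
  obtain ⟨L, F, rfl⟩ := hf
  refine ⟨L, fun j x => F j (fun a => x a % m), funext fun n => ?_⟩
  unfold phm
  refine Finset.sum_congr rfl fun j _ => ?_
  congr 1
  funext a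
  exact (Nat.mod_mod_of_dvd _ hm).symm

/-- the windows of `n + j`, for `n ≡ v` modulo `q ^ K`, `v + j < q ^ K` -/
theorem Ph_wd {q : ℕ} (hq : 2 ≤ q) (m K v j : ℕ) (hvj : v + j < q ^ K) :
    ∃ w : ℕ → ℕ → ℕ, ∀ n, n % q ^ K = v → ∀ i,
      (n + j) / q ^ i % m = w i (n / q ^ (max i K) % m) := by
  have hq0 : 0 < q := by omega
  refine ⟨fun i x => if K ≤ i then x
      else (q ^ (K - i) * x + (v + j) / q ^ i) % m, ?_⟩
  intro n hn i
  have hP : 0 < q ^ K := Nat.pow_pos hq0
  have hs : n + j = q ^ K * (n / q ^ K) + (v + j) := by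
    have := Nat.div_add_mod n (q ^ K)
    omega
  by_cases hi : K ≤ i
  · simp only [hi, if_true, max_eq_left hi]
    have h4 : q ^ i = q ^ K * q ^ (i - K) := by
      rw [← pow_add]
      congr 1
      omega
    have h3 : (n + j) / q ^ i = n / q ^ i := by
      rw [h4, ← Nat.div_div_eq_div_mul, ← Nat.div_div_eq_div_mul]
      congr 1
      conv_lhs => rw [hs]
      rw [Nat.mul_add_div hP, Nat.div_eq_of_lt hvj, Nat.add_zero]
    rw [h3]
  · simp only [hi, if_false]
    have hi' : i ≤ K := by omega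
    rw [max_eq_right hi']
    have h1 : (n + j) / q ^ i = q ^ (K - i) * (n / q ^ K) + (v + j) / q ^ i := by
      conv_lhs => rw [hs]
      have h2 : q ^ K * (n / q ^ K) = q ^ i * (q ^ (K - i) * (n / q ^ K)) := by
        rw [← mul_assoc, ← pow_add]
        congr 2
        omega
      rw [h2, Nat.mul_add_div (Nat.pow_pos hq0)]
    rw [h1, Nat.add_mod (q ^ (K - i) * (n / q ^ K)), Nat.add_mod (q ^ (K - i) * (n / q ^ K % m)),
      Nat.mul_mod (q ^ (K - i)) (n / q ^ K), Nat.mul_mod (q ^ (K - i)) (n / q ^ K % m),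
      Nat.mod_mod]

/-- for `n ≡ v` modulo `q ^ K` the shift by `j` with `v + j < q ^ K` is a phase again -/
theorem shift_lowm {q : ℕ} (hq : 2 ≤ q) (m d L K v j : ℕ) (hvj : v + j < q ^ K)
    (F : (Fin d → ℕ) → (Fin d → ℕ) → G) :
    ∃ f : ℕ → G, IsPhm q m d f ∧ ∀ n, n % q ^ K = v → phm q m d L F (n + j) = f n := by
  obtain ⟨w, hw⟩ := Ph_wd hq m K v j hvj
  refine ⟨_, ⟨max L (K + 1), fun j' x => ∑ i ∈ (Fintype.piFinset (fun _ : Fin d => range L)).filter
    (fun i => (fun a => max (i a) K) = j'), F i (fun a => w (i a) (x a)), rfl⟩, fun n hn => ?_⟩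
  exact phm_reindex (fun i => max i K) (fun i hi => by
    show max i K < max L (K + 1)
    omega) w (hw n hn) F

/-- the windows of `n + s`, for `n ≤ N ≤ q ^ K1` -/
theorem Ph_tr {q : ℕ} (hq : 2 ≤ q) (m K1 N : ℕ) (hN : N ≤ q ^ K1) (s : ℕ) :
    ∃ w : ℕ → ℕ → ℕ, ∀ n ≤ N, ∀ i,
      (n + s) / q ^ i % m = w i ((n + s % q ^ K1) / q ^ (min i K1) % m) := by
  have hq0 : 0 < q := by omega
  refine ⟨fun i x => if i ≤ K1 then (q ^ (K1 - i) * (s / q ^ K1) + x) % m
      else (s / q ^ K1 + x) / q ^ (i - K1) % m, ?_⟩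
  intro n hn i
  have hP : 0 < q ^ K1 := Nat.pow_pos hq0
  have hs : n + s = q ^ K1 * (s / q ^ K1) + (n + s % q ^ K1) := by
    have := Nat.div_add_mod s (q ^ K1)
    omega
  by_cases hi : i ≤ K1
  · simp only [hi, if_true, min_eq_left hi]
    have h1 : (n + s) / q ^ i = q ^ (K1 - i) * (s / q ^ K1) + (n + s % q ^ K1) / q ^ i := by
      conv_lhs => rw [hs]
      have h2 : q ^ K1 * (s / q ^ K1) = q ^ i * (q ^ (K1 - i) * (s / q ^ K1)) := by
        rw [← mul_assoc, ← pow_add]
        congr 2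
        omega
      rw [h2, Nat.mul_add_div (Nat.pow_pos hq0)]
    rw [h1, Nat.add_mod, Nat.add_mod (q ^ (K1 - i) * (s / q ^ K1))
      ((n + s % q ^ K1) / q ^ i % m), Nat.mod_mod]
  · simp only [hi, if_false]
    have hi' : K1 ≤ i := by omega
    rw [min_eq_right hi']
    have hb : (n + s % q ^ K1) / q ^ K1 < 2 := by
      rw [Nat.div_lt_iff_lt_mul hP]
      have := Nat.mod_lt s hP
      omega
    rcases Nat.lt_or_ge m 2 with hm | hm
    · rcases Nat.lt_or_ge 0 m with h0 | h0
      · have h1 : m = 1 := by omega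
        subst h1
        rw [Nat.mod_one, Nat.mod_one]
      · have h1 : m = 0 := by omega
        subst h1
        rw [Nat.mod_zero, Nat.mod_zero, Nat.mod_zero]
        have h4 : q ^ i = q ^ K1 * q ^ (i - K1) := by
          rw [← pow_add]
          congr 1
          omega
        rw [h4, ← Nat.div_div_eq_div_mul]
        congr 1
        conv_lhs => rw [hs]
        rw [Nat.mul_add_div hP]
    · rw [Nat.mod_eq_of_lt (a := (n + s % q ^ K1) / q ^ K1) (by omega)]
      have h3 : (n + s) / q ^ i = (s / q ^ K1 + (n + s % q ^ K1) / q ^ K1) / q ^ (i - K1) := by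
        have h4 : q ^ i = q ^ K1 * q ^ (i - K1) := by
          rw [← pow_add]
          congr 1
          omega
        rw [h4, ← Nat.div_div_eq_div_mul]
        congr 1
        conv_lhs => rw [hs]
        rw [Nat.mul_add_div hP]
      rw [h3]

theorem trunc_phm {q : ℕ} (hq : 2 ≤ q) (m d K1 N : ℕ) (hN : N ≤ q ^ K1) (L s : ℕ)
    (F : (Fin d → ℕ) → (Fin d → ℕ) → G) :
    ∃ (F' : (Fin d → ℕ) → (Fin d → ℕ) → G) (s' : ℕ), s' < q ^ K1 ∧ ∀ n ≤ N,
      phm q m d L F (n + s) = phm q m d (K1 + 1) F' (n + s') := by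
  obtain ⟨w, hw⟩ := Ph_tr hq m K1 N hN s
  refine ⟨fun j' x => ∑ j ∈ (Fintype.piFinset (fun _ : Fin d => range L)).filter
    (fun j => (fun a => min (j a) K1) = j'), F j (fun a => w (j a) (x a)), s % q ^ K1,
    Nat.mod_lt _ (Nat.pow_pos (by omega)), fun n hn => ?_⟩
  exact phm_reindex (fun i => min i K1) (fun i _ => by
    show min i K1 < K1 + 1
    omega) w (hw n hn) F

/-- functions of one window -/
theorem IsPhm.single {q m d : ℕ} (hd : 1 ≤ d) (i : ℕ) (c : ℕ → G) :
    IsPhm q m d (fun n => c (n / q ^ i % m)) := by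
  refine ⟨i + 1, fun j x => if ∀ a, j a = i then c (x ⟨0, hd⟩) else 0, ?_⟩
  funext n
  unfold phm
  rw [Finset.sum_eq_single (fun _ : Fin d => i)]
  · show _ = if ∀ _ : Fin d, i = i then c (n / q ^ i % m) else 0
    rw [if_pos fun _ => rfl]
  · intro j _ hj
    show (if ∀ a : Fin d, j a = i then c (n / q ^ (j ⟨0, hd⟩) % m) else 0) = 0
    rw [if_neg]
    intro h
    exact hj (funext h)
  · intro h
    exfalso
    apply h
    rw [Fintype.mem_piFinset]
    intro a
    rw [mem_range]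
    omega

theorem low_digitsm {q m : ℕ} (hm : q ∣ m) (d K : ℕ) (hd : 1 ≤ d) (M : ℕ) (a : ZMod M) :
    IsPhm q m d (fun n => a * ((n % q ^ K : ℕ) : ZMod M)) := by
  have h1 : (fun n : ℕ => a * ((n % q ^ K : ℕ) : ZMod M)) =
      fun n => ∑ i ∈ range K, a * ((((n / q ^ i % m) % q) * q ^ i : ℕ) : ZMod M) := by
    funext n
    rw [WordsA_dig, Nat.cast_sum, Finset.mul_sum]
    refine Finset.sum_congr rfl fun i _ => ?_
    rw [Nat.mod_mod_of_dvd _ hm]
  rw [h1]
  exact IsPhm.sum _ fun i _ => IsPhm.single hd i fun w => a * (((w % q) * q ^ i : ℕ) : ZMod M)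

end

end Pool.Agent.Lib.MP_3e612f_nt.EM
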